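import Mathlib
import Pool.Agent.H63.SB.FinalThm

/-!
# Star bodies with homothetic sections are homothetic

Let `n ≥ 3` and `2 ≤ k ≤ n - 1`, and let `K`, `L` be star bodies in `ℝⁿ` (the origin may lie on the
boundary and the radial functions may vanish). If `K ∩ S` is homothetic to `L ∩ S` for every
`k`-dimensional linear subspace `S`, then `K` is homothetic to `L`.
-/

namespace Pool.Agent.Results.MP_bd4439_gt.StarBodies

open Pool.Agent.H63.SB Set

/-- The radial function `ρ_K(u) = max {a ≥ 0 : a u ∈ K}`. -/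
noncomputable def radial {n : ℕ} (K : Set (EuclideanSpace ℝ (Fin n)))
    (u : EuclideanSpace ℝ (Fin n)) : ℝ :=
  sSup {a : ℝ | 0 ≤ a ∧ a • u ∈ K}

/-- Star bodies: compact sets equal to the closure of their interior, star-shaped with respect to
the origin, with radial function continuous on the set of the unit vectors where it is positive. -/
structure IsStarBody {n : ℕ} (K : Set (EuclideanSpace ℝ (Fin n))) : Prop where
  compact : IsCompact K
  closure_interior : closure (interior K) = K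
  zero_mem : (0 : EuclideanSpace ℝ (Fin n)) ∈ K
  star : ∀ x ∈ K, ∀ t : ℝ, 0 ≤ t → t ≤ 1 → t • x ∈ K
  radial_continuous : ContinuousOn (radial K) {u | ‖u‖ = 1 ∧ 0 < radial K u}

/-- `A = x + l B` for some vector `x` and some `l > 0`. -/
def Homothetic {n : ℕ} (A B : Set (EuclideanSpace ℝ (Fin n))) : Prop :=
  ∃ (x : EuclideanSpace ℝ (Fin n)) (l : ℝ), 0 < l ∧ A = (fun z => x + l • z) '' B

theorem starB {n : ℕ} {K : Set (EuclideanSpace ℝ (Fin n))} (h : IsStarBody K) : StarB K :=
  StarB.of_body h.compact h.closure_interior h.zero_mem h.star h.radial_continuous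

theorem hom_of_homothetic {n : ℕ} {K L : Set (EuclideanSpace ℝ (Fin n))}
    (hL0 : (0 : EuclideanSpace ℝ (Fin n)) ∈ L) {S : Submodule ℝ (EuclideanSpace ℝ (Fin n))}
    (h : Homothetic (K ∩ S) (L ∩ S)) :
    ∃ (x : EuclideanSpace ℝ (Fin n)) (l : ℝ), Hom K L S x l := by
  obtain ⟨x, l, hl, h⟩ := h
  have hx : x ∈ S := by
    have h1 : x ∈ K ∩ (S : Set (EuclideanSpace ℝ (Fin n))) := by
      rw [h]
      exact ⟨0, ⟨hL0, S.zero_mem⟩, by simp⟩
    exact h1.2
  refine ⟨x, l, hx, hl, fun z hz => ?_⟩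
  constructor
  · intro hz'
    have h1 : x + l • z ∈ K ∩ (S : Set (EuclideanSpace ℝ (Fin n))) :=
      ⟨hz', S.add_mem hx (S.smul_mem _ hz)⟩
    rw [h] at h1
    obtain ⟨y, hy, he⟩ := h1
    have h2 : y = z := smul_right_injective _ hl.ne' (add_left_cancel he)
    exact h2 ▸ hy.1
  · intro hz'
    have h1 : x + l • z ∈ K ∩ (S : Set (EuclideanSpace ℝ (Fin n))) := by
      rw [h]
      exact ⟨z, ⟨hz', hz⟩, rfl⟩
    exact h1.1

theorem homothetic_of_hom {n : ℕ} {K L : Set (EuclideanSpace ℝ (Fin n))}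
    {x : EuclideanSpace ℝ (Fin n)} {l : ℝ} (h : Hom K L ⊤ x l) : Homothetic K L := by
  obtain ⟨-, hl, h⟩ := h
  refine ⟨x, l, hl, ?_⟩
  ext z
  constructor
  · intro hz
    have e : x + l • (l⁻¹ • (z - x)) = z := by
      rw [smul_smul, mul_inv_cancel₀ hl.ne', one_smul, add_sub_cancel]
    exact ⟨l⁻¹ • (z - x), (h _ Submodule.mem_top).1 (by rwa [e]), e⟩
  · rintro ⟨y, hy, rfl⟩
    exact (h y Submodule.mem_top).2 hy

/-- **Star bodies with homothetic sections are homothetic.** -/
theorem result (n k : ℕ) (hn : 3 ≤ n) (hk : 2 ≤ k) (hkn : k ≤ n - 1)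
    (K L : Set (EuclideanSpace ℝ (Fin n))) (hK : IsStarBody K) (hL : IsStarBody L)
    (hsec : ∀ S : Submodule ℝ (EuclideanSpace ℝ (Fin n)), Module.finrank ℝ S = k →
      Homothetic (K ∩ (S : Set (EuclideanSpace ℝ (Fin n))))
        (L ∩ (S : Set (EuclideanSpace ℝ (Fin n))))) :
    Homothetic K L := by
  have hfr : k + 1 ≤ Module.finrank ℝ (EuclideanSpace ℝ (Fin n)) := by
    rw [finrank_euclideanSpace_fin]; omega
  obtain ⟨x, l, h⟩ := starBodies hK.closure_interior hL.closure_interior (starB hK) (starB hL)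
    hk hfr (fun S hS => hom_of_homothetic hL.zero_mem (hsec S hS))
  exact homothetic_of_hom h

end Pool.Agent.Results.MP_bd4439_gt.StarBodies
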